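import Pool.Agent.Helper40.DZ.Stmts
import Pool.Agent.Helper11.BZ.PTB2

/-!
PTB3: the structured part for Riemann integrable cocycles (MP_7a8f48_an). Adapted from the module
PTB2 of helper11.
-/

open Finset Filter MeasureTheory Topology
open scoped ComplexConjugate InnerProductSpace

namespace Pool.Agent.Helper40.DZ

open Pool.Agent.Helper16.AZ (T E Op mm Eig PP unitary_norm ST_VDH ST_MSR ST_MRF ST_FPV)
open Pool.Agent.Helper16.BZ (co Wk EE ff EQ Act ff_norm ptb2_point)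
open Pool.Agent.Helper16.MD (MS PB Am RW Rich)
open Pool.Agent.Helper53.AZ (ptb_count ptb_mu)

theorem ptb3_mean {r d : ℕ} (R : T r → E d) (hR : RI R) (ε ε' : ℝ)
    (hε : 0 ≤ ε) (hε' : ε < ε') (h : ∫ θ, ‖R θ‖ ^ 2 ∂(mm r) ≤ ε ^ 2) :
    ∫ θ, ‖R θ‖ ∂(mm r) ≤ ε' := by
  have h0 : 0 < ε' := lt_of_le_of_lt hε hε'
  have hi : Integrable (fun θ => ‖R θ‖) (mm r) := hR.norm.integrable
  have hi2 : Integrable (fun θ => ‖R θ‖ ^ 2) (mm r) :=
    (hR.norm.cont_comp (g := fun t : ℝ => t ^ 2) (by fun_prop)).integrable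
  have h1 : ∫ θ, ‖R θ‖ ∂(mm r) ≤ ∫ θ, (‖R θ‖ ^ 2 + ε' ^ 2) / (2 * ε') ∂(mm r) := by
    refine integral_mono hi ((hi2.add (integrable_const _)).div_const _) fun θ => ?_
    show ‖R θ‖ ≤ (‖R θ‖ ^ 2 + ε' ^ 2) / (2 * ε')
    rw [le_div_iff₀ (by positivity)]
    nlinarith [sq_nonneg (‖R θ‖ - ε')]
  refine h1.trans ?_
  rw [integral_div, integral_add hi2 (integrable_const _), integral_const,
    div_le_iff₀ (by positivity)]
  simp only [probReal_univ, smul_eq_mul, one_mul]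
  nlinarith

theorem st_PTB3 (heqr : ST_EQR) (hmrf : ST_MRF) : ST_PTB3 := by
  intro r d S φ b u x ε K z g hS hmp heq hφ hb hu hε hzg hint δ hδ
  -- bounds
  have hbdd : ∀ G : T r → E d, Continuous G → ∃ B : ℝ, 0 ≤ B ∧ ∀ θ, ‖G θ‖ ≤ B := by
    intro G hG
    obtain ⟨B, hB⟩ := (isCompact_range hG.norm).bddAbove
    exact ⟨B, (norm_nonneg _).trans (hB ⟨x, rfl⟩), fun θ => hB ⟨θ, rfl⟩⟩
  obtain ⟨Bd, hBd0, hBd⟩ := hbdd b hb
  choose G hG0 hG using fun k => hbdd (g k) (hzg k).2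
  obtain ⟨Gs, hGs⟩ : ∃ Gs : ℝ, Gs = ∑ k ∈ range K, G k := ⟨_, rfl⟩
  have hGs0 : 0 ≤ Gs := by rw [hGs]; exact Finset.sum_nonneg fun k _ => hG0 k
  obtain ⟨L₀, hL₀⟩ := hmrf (δ / (4 * (1 + Gs))) (by positivity)
  obtain ⟨L, hL⟩ : ∃ L : ℕ, L = L₀ + 1 := ⟨_, rfl⟩
  obtain ⟨N₀, hN₀⟩ := hL₀ L (by omega)
  -- equidistribution
  obtain ⟨R, hR⟩ : ∃ R : ℕ → T r → E d, R = fun j θ =>
      Wk S φ j b θ - ∑ k ∈ range K, (z k ^ j) • g k θ := ⟨_, rfl⟩
  have hRc : ∀ j, RI (R j) := by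
    intro j
    rw [hR]
    exact (Wk_RI hS hmp hφ (RI.of_continuous hb) j).sub (RI.sum _ fun k _ =>
      (RI.of_continuous (hzg k).2).const_smul _)
  have hRi : ∀ j, ∫ θ, ‖R j θ‖ ∂(mm r) ≤ ε + δ / 8 := by
    intro j
    refine ptb3_mean (R j) (hRc j) ε _ hε (by linarith) ?_
    rw [hR]
    exact hint j
  have hev : ∀ j, ∀ᶠ N : ℕ in atTop, ∑ m ∈ range N, ‖R j (S^[m] x)‖ ≤ (ε + δ / 4) * N := by
    intro j
    have h1 := (heqr r S heq (fun θ => ((‖R j θ‖ : ℝ) : ℂ))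
      ((hRc j).norm.cont_comp Complex.continuous_ofReal) 1 x le_rfl).1
    rw [Metric.tendsto_nhds] at h1
    filter_upwards [h1 (δ / 8) (by positivity), eventually_ge_atTop 1] with N hN hN1
    have hNpos : (0 : ℝ) < N := by exact_mod_cast hN1
    have hio : ∫ θ, ((‖R j θ‖ : ℝ) : ℂ) ∂(mm r) = ((∫ θ, ‖R j θ‖ ∂(mm r) : ℝ) : ℂ) :=
      integral_ofReal
    rw [hio] at hN
    have h2 : (∑ m ∈ range N, ((‖R j (S^[1 * m] x)‖ : ℝ) : ℂ)) / (N : ℂ) =
        (((∑ m ∈ range N, ‖R j (S^[m] x)‖) / N : ℝ) : ℂ) := by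
      push_cast
      simp only [one_mul]
    rw [h2, Complex.dist_eq, ← Complex.ofReal_sub, Complex.norm_real, Real.norm_eq_abs] at hN
    have h3 := (abs_lt.1 hN).2
    have h4 := hRi j
    have h5 : (∑ m ∈ range N, ‖R j (S^[m] x)‖) / N ≤ ε + δ / 4 := by linarith
    rwa [div_le_iff₀ hNpos] at h5
  have hevL : ∀ᶠ N : ℕ in atTop, ∀ j ∈ range L,
      ∑ m ∈ range N, ‖R j (S^[m] x)‖ ≤ (ε + δ / 4) * N := by
    rw [Filter.eventually_all_finset]
    exact fun j _ => hev j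
  obtain ⟨N₂, hN₂⟩ := exists_nat_ge (2 * L * Bd / (δ / 2))
  filter_upwards [hevL, eventually_ge_atTop (max N₀ N₂)] with N hN hNmax
  have hNN0 : N₀ ≤ N := (le_max_left _ _).trans hNmax
  have hNN2 : 2 * L * Bd ≤ δ / 2 * N := by
    have h1 : (N₂ : ℝ) ≤ N := by exact_mod_cast (le_max_right _ _).trans hNmax
    have h2 := hN₂.trans h1
    rw [div_le_iff₀ (by positivity)] at h2
    linarith
  have hLpos : (0 : ℝ) < L := by rw [hL]; positivity
  have hcount := ptb_count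
    (fun n => ((ArithmeticFunction.moebius n : ℤ) : ℂ) * ff S φ b u x n) Bd (fun n => by
      rw [norm_mul]
      exact (mul_le_of_le_one_left (norm_nonneg _) (ptb_mu _)).trans
        (ff_norm S φ b hφ.2 u x n Bd hBd hu)) N L
  have hmain : ∑ m ∈ range N, ‖∑ j ∈ range L,
      ((ArithmeticFunction.moebius (m + j) : ℤ) : ℂ) * ff S φ b u x (m + j)‖ ≤
      L * ((ε + δ / 4) * N) + δ / 4 * (L * N) := by
    have h1 : ∑ m ∈ range N, ‖∑ j ∈ range L,
        ((ArithmeticFunction.moebius (m + j) : ℤ) : ℂ) * ff S φ b u x (m + j)‖ ≤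
        ∑ m ∈ range N, (∑ j ∈ range L, ‖R j (S^[m] x)‖ + ∑ k ∈ range K, G k *
          ‖∑ j ∈ range L, ((ArithmeticFunction.moebius (m + j) : ℤ) : ℂ) *
            (conj (z k)) ^ j‖) := by
      refine Finset.sum_le_sum fun m _ => ?_
      refine (ptb2_point S φ b u x K z g hφ.2 hu m L).trans ?_
      rw [hR]
      exact add_le_add le_rfl (Finset.sum_le_sum fun k _ =>
        mul_le_mul_of_nonneg_right (hG k _) (norm_nonneg _))
    refine h1.trans ?_
    rw [Finset.sum_add_distrib, Finset.sum_comm (s := range N) (t := range L),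
      Finset.sum_comm (s := range N) (t := range K)]
    refine add_le_add ?_ ?_
    · refine (Finset.sum_le_sum hN).trans (le_of_eq ?_)
      rw [Finset.sum_const, Finset.card_range, nsmul_eq_mul]
    · have h2 : ∀ k ∈ range K, ∑ m ∈ range N, G k *
          ‖∑ j ∈ range L, ((ArithmeticFunction.moebius (m + j) : ℤ) : ℂ) *
            (conj (z k)) ^ j‖ ≤ G k * (δ / (4 * (1 + Gs)) * L * N) := by
        intro k _
        rw [← Finset.mul_sum]
        refine mul_le_mul_of_nonneg_left ?_ (hG0 k)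
        refine hN₀ N hNN0 (fun j => (conj (z k)) ^ j) fun j => ?_
        rw [norm_pow, RCLike.norm_conj, (hzg k).1, one_pow]
      refine (Finset.sum_le_sum h2).trans ?_
      rw [← Finset.sum_mul, ← hGs]
      have h3 : Gs * (δ / (4 * (1 + Gs)) * L * N) = (Gs / (1 + Gs)) * (δ / 4 * (L * N)) := by
        field_simp
      rw [h3]
      refine mul_le_of_le_one_left (by positivity) ?_
      rw [div_le_one (by positivity)]
      linarith
  have hfin : (L : ℝ) * ‖MS (ff S φ b u x) N‖ ≤ L * ((ε + δ) * N) := by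
    unfold MS
    refine hcount.trans ?_
    have h1 : (L : ℝ) * (2 * L * Bd) ≤ L * (δ / 2 * N) :=
      mul_le_mul_of_nonneg_left hNN2 hLpos.le
    linarith
  exact le_of_mul_le_mul_left hfin hLpos

end Pool.Agent.Helper40.DZ
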